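import Mathlib
import Pool.Agent.R158.Hesse

set_option autoImplicit false

/-!
# Injective homomorphism counts into `PG(2, p)` need not converge on the logarithmic scale

The incidence graph `H` of the affine plane of order three (the Hesse configuration) has an injective
homomorphism into the incidence graph of `PG(2, p)` when `p` is a prime congruent to one modulo three,
and none when `p` is congruent to two modulo three.
-/

namespace Pool.Agent.Results.MP_5e7574_co.HesseDiverges

open Filter Topology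
open scoped LinearAlgebra.Projectivization

/-- A finite bipartite graph `(V₁, V₂, E)` with labelled vertex classes and `E ⊆ V₁ × V₂`. -/
structure BiGraph where
  V₁ : Type
  V₂ : Type
  [fin₁ : Finite V₁]
  [fin₂ : Finite V₂]
  E : V₁ → V₂ → Prop

/-- The class `𝓑₀`: the graph has at least one edge. -/
def HasEdge (H : BiGraph) : Prop := ∃ x y, H.E x y

/-- The number of label-preserving homomorphisms `H → G` which are injective on vertices. -/
noncomputable def inj (H G : BiGraph) : ℕ :=
  Nat.card {f : (H.V₁ → G.V₁) × (H.V₂ → G.V₂) // f.1.Injective ∧ f.2.Injective ∧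
    ∀ x y, H.E x y → G.E (f.1 x) (f.2 y)}

/-- The point-line incidence graph of `PG(2, K)`: points and lines are given by homogeneous
coordinates, a point being on a line when the coordinate vectors are orthogonal. -/
def PG (K : Type) [Field K] [Finite K] : BiGraph where
  V₁ := ℙ K (Fin 3 → K)
  V₂ := ℙ K (Fin 3 → K)
  E := fun x l => x.orthogonal l

/-- `log_b n` in `[-∞, ∞)`, with the convention `log_b 0 = -∞`. -/
noncomputable def elog (b n : ℕ) : EReal := if n = 0 then ⊥ else ((Real.logb b n : ℝ) : EReal)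

/-- The sequence `log_p inj(H, G_p)`, with `p` running through the primes in increasing order
(`Nat.nth Nat.Prime n` is the prime number with index `n`). -/
noncomputable def seq (H : BiGraph) (n : ℕ) : EReal :=
  haveI : Fact (Nat.nth Nat.Prime n).Prime := ⟨Nat.prime_nth_prime n⟩
  elog (Nat.nth Nat.Prime n) (inj H (PG (ZMod (Nat.nth Nat.Prime n))))

/-- Convergence of a sequence in `[-∞, ∞)`: it has a limit in `[-∞, ∞)`. -/
def Converges (a : ℕ → EReal) : Prop := ∃ l : EReal, l ≠ ⊤ ∧ Tendsto a atTop (𝓝 l)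

/-- The incidence graph of the affine plane of order three: the points are the pairs `(x, y)` over
`ZMod 3`, the lines are the nine lines `y = m x + b` and the three lines `x = c`. -/
def hesse : BiGraph where
  V₁ := ZMod 3 × ZMod 3
  V₂ := (ZMod 3 × ZMod 3) ⊕ ZMod 3
  E := fun p l => Sum.elim (fun mb => p.2 = mb.1 * p.1 + mb.2) (fun c => p.1 = c) l

instance (H : BiGraph) : Finite H.V₁ := H.fin₁
instance (H : BiGraph) : Finite H.V₂ := H.fin₂

lemma inj_ne_zero (H G : BiGraph) : inj H G ≠ 0 ↔ ∃ (f : H.V₁ → G.V₁) (g : H.V₂ → G.V₂),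
    f.Injective ∧ g.Injective ∧ ∀ x y, H.E x y → G.E (f x) (g y) := by
  rw [inj, Nat.card_ne_zero]
  constructor
  · rintro ⟨⟨⟨⟨f, g⟩, h⟩⟩, -⟩
    exact ⟨f, g, h⟩
  · rintro ⟨f, g, h⟩
    exact ⟨⟨⟨⟨f, g⟩, h⟩⟩, inferInstance⟩

lemma inj_zero_of (p : ℕ) [Fact p.Prime] (hp : p % 3 = 2) : inj hesse (PG (ZMod p)) = 0 := by
  by_contra h
  obtain ⟨f, g, hf, hg, hfg⟩ := (inj_ne_zero _ _).1 h
  apply Pool.Agent.R158.Hesse.no_root (Fact.out : p.Prime) hp
  refine Pool.Agent.R158.Hesse.necessary f g hf hg ?_
  intro x l hxl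
  apply hfg
  rcases l with l | l
  · exact hxl
  · exact hxl

lemma inj_pos_of (p : ℕ) [Fact p.Prime] (hp : p % 3 = 1) : inj hesse (PG (ZMod p)) ≠ 0 := by
  obtain ⟨t, ht⟩ := Pool.Agent.R158.Hesse.root (Fact.out : p.Prime) hp
  have h3 : (3 : ZMod p) ≠ 0 := by
    intro h3
    have h4 : ((3 : ℕ) : ZMod p) = 0 := by exact_mod_cast h3
    rw [ZMod.natCast_eq_zero_iff] at h4
    have h5 := (Nat.prime_dvd_prime_iff_eq Fact.out Nat.prime_three).1 h4
    omega
  obtain ⟨f, g, hf, hg, hfg⟩ := Pool.Agent.R158.Hesse.sufficient ht h3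
  rw [inj_ne_zero]
  refine ⟨f, g, hf, hg, ?_⟩
  intro x l hxl
  apply hfg
  rcases l with l | l
  · exact hxl
  · exact hxl

lemma freq (a : ℕ) (ha : IsUnit (a : ZMod 3)) (h3 : a < 3) :
    ∃ᶠ n in atTop, Nat.nth Nat.Prime n % 3 = a := by
  rw [frequently_atTop]
  intro N
  obtain ⟨p, hpn, hp, hpa⟩ := Nat.forall_exists_prime_gt_and_eq_mod ha (Nat.nth Nat.Prime N)
  refine ⟨Nat.count Nat.Prime p, ?_, ?_⟩
  · by_contra hlt
    push Not at hlt
    have h1 : Nat.nth Nat.Prime (Nat.count Nat.Prime p) ≤ Nat.nth Nat.Prime N :=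
      Nat.nth_monotone Nat.infinite_setOf_prime hlt.le
    rw [Nat.nth_count hp] at h1
    omega
  · rw [Nat.nth_count hp]
    have h1 := (ZMod.natCast_eq_natCast_iff' p a 3).1 hpa
    rw [Nat.mod_eq_of_lt h3] at h1
    exact h1

/-- Let `H` be the incidence graph of the affine plane of order three. For primes `p ≠ 3` the number
`inj(H, G_p)` is nonzero exactly when `p` is congruent to one modulo three. So the sequence
`log_p inj(H, G_p)`, `p` running through the primes, has `liminf < limsup`, and it does not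
converge. -/
theorem result : HasEdge hesse ∧
    (∀ (p : ℕ) [Fact p.Prime], p ≠ 3 → (inj hesse (PG (ZMod p)) ≠ 0 ↔ p % 3 = 1)) ∧
    liminf (seq hesse) atTop < limsup (seq hesse) atTop ∧ ¬ Converges (seq hesse) := by
  have hlt : liminf (seq hesse) atTop < limsup (seq hesse) atTop := by
    have h1 : liminf (seq hesse) atTop ≤ ⊥ := by
      apply liminf_le_of_frequently_le'
      refine (freq 2 (by decide) (by norm_num)).mono ?_
      intro n hn
      haveI : Fact (Nat.nth Nat.Prime n).Prime := ⟨Nat.prime_nth_prime n⟩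
      have := inj_zero_of _ hn
      rw [seq, this, elog, if_pos rfl]
    have h2 : (0 : EReal) ≤ limsup (seq hesse) atTop := by
      apply le_limsup_of_frequently_le'
      refine (freq 1 (by decide) (by norm_num)).mono ?_
      intro n hn
      haveI : Fact (Nat.nth Nat.Prime n).Prime := ⟨Nat.prime_nth_prime n⟩
      have := inj_pos_of _ hn
      rw [seq, elog, if_neg this]
      have h3 : (0 : ℝ) ≤ Real.logb (Nat.nth Nat.Prime n)
          (inj hesse (PG (ZMod (Nat.nth Nat.Prime n)))) := by
        apply Real.logb_nonneg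
        · exact_mod_cast (Nat.prime_nth_prime n).one_lt
        · exact_mod_cast Nat.one_le_iff_ne_zero.2 this
      exact_mod_cast h3
    calc liminf (seq hesse) atTop ≤ ⊥ := h1
      _ < 0 := EReal.bot_lt_zero
      _ ≤ _ := h2
  refine ⟨⟨(0, 0), Sum.inr 0, rfl⟩, ?_, hlt, ?_⟩
  · intro p hp hp3
    constructor
    · intro h
      have hprime : p.Prime := Fact.out
      have h0 : p % 3 ≠ 0 := by
        intro h0
        exact hp3 ((Nat.prime_dvd_prime_iff_eq Nat.prime_three hprime).1
          (Nat.dvd_of_mod_eq_zero h0)).symm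
      have h2 : p % 3 ≠ 2 := fun h2 => h (inj_zero_of p h2)
      omega
    · exact inj_pos_of p
  · rintro ⟨l, -, hl⟩
    rw [hl.liminf_eq, hl.limsup_eq] at hlt
    exact lt_irrefl _ hlt

end Pool.Agent.Results.MP_5e7574_co.HesseDiverges
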